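import Pool.Agent.Helper93.T53.StD

/-!
# Project T53 (levels `5·3^n`), module SPL: splitting a list by the sign of `a d`
-/

set_option autoImplicit false

namespace Pool.Agent.Helper72.T53

open Pool.Agent.Helper93.T53
open Pool.Agent.Helper78.W3 (tr Fn3 Tm opL op3 mulL negL Wd3 dX dY oD oN Lw sS M5 bb3 S3PlA S3Trm S3Low0 S3Nf S3Exp S3Lw1 S3Bb)

private theorem op3_neg (ht : S3Trm) (r s : ℕ) (a b c d : ℤ) (ha : ¬ (3 : ℤ) ∣ a) (hd : ¬ (3 : ℤ) ∣ d) :
    (op3 a b c d : Module.End (ZMod 3) (Fn3 (3 ^ r) (3 ^ s))) = oN * op3 (-a) (-b) c d := by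
  apply LinearMap.ext
  intro F
  show tr a b c d F = tr (-1) 0 0 1 (tr (-a) (-b) c d F)
  rw [(ht (ZMod 3) r s F).1 (-1) 0 0 1 (-a) (-b) c d (by decide) (by decide)
    (fun h => ha ((dvd_neg).1 h)) hd]
  congr 1 <;> ring

private theorem opL_cons (r s : ℕ) (t : Tm) (L : List Tm) :
    (opL (t :: L) : Module.End (ZMod 3) (Fn3 (3 ^ r) (3 ^ s))) =
      ((t.1 : ℤ) : ZMod 3) • op3 t.2.1 t.2.2.1 t.2.2.2.1 t.2.2.2.2 + opL L := by
  unfold opL
  rw [List.map_cons, List.sum_cons]

private theorem opL_nil (r s : ℕ) : (opL ([] : List Tm) : Module.End (ZMod 3) (Fn3 (3 ^ r) (3 ^ s))) = 0 := by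
  unfold opL
  rfl

private theorem split (ht : S3Trm) (r s : ℕ) (L : List Tm) (hL : ∀ t ∈ L, GdT t) :
    (opL L : Module.End (ZMod 3) (Fn3 (3 ^ r) (3 ^ s))) = opL (pA L) + oN * opL (pB L) := by
  induction L with
  | nil =>
    show (opL ([] : List Tm) : Module.End (ZMod 3) (Fn3 (3 ^ r) (3 ^ s))) =
      opL ([] : List Tm) + oN * opL ([] : List Tm)
    rw [opL_nil, mul_zero, add_zero]
  | cons t L ih =>
    have ih' := ih fun u hu => hL u (List.mem_cons_of_mem t hu)
    by_cases h : (t.2.1 * t.2.2.2.2) % 3 = 1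
    · have e1 : pA (t :: L) = t :: pA L := by
        unfold pA
        rw [List.filter_cons_of_pos (by simpa using h)]
      have e2 : pB (t :: L) = pB L := by
        unfold pB
        rw [List.filter_cons_of_neg (by simpa using h)]
      rw [e1, e2, opL_cons, opL_cons, ih', add_assoc]
    · have e1 : pA (t :: L) = pA L := by
        unfold pA
        rw [List.filter_cons_of_neg (by simpa using h)]
      have e2 : pB (t :: L) = (t.1, -t.2.1, -t.2.2.1, t.2.2.2.1, t.2.2.2.2) :: pB L := by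
        unfold pB
        rw [List.filter_cons_of_pos (by simpa using h), List.map_cons]
      have hg := hL t List.mem_cons_self
      rw [e1, e2, opL_cons, opL_cons, ih', mul_add, mul_smul_comm,
        op3_neg ht r s t.2.1 t.2.2.1 t.2.2.2.1 t.2.2.2.2 hg.1 hg.2]
      abel

/-- SPL. -/
theorem hSpl (ht : S3Trm) : TSpl := by
  intro r s L hL
  refine ⟨split ht r s L hL, ?_, ?_⟩
  · intro t h
    unfold pA at h
    have := (List.mem_filter.1 h).2
    simpa using this
  · intro t h
    unfold pB at h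
    obtain ⟨u, hu, rfl⟩ := List.mem_map.1 h
    have h1 : ¬ (u.2.1 * u.2.2.2.2) % 3 = 1 := by
      have := (List.mem_filter.1 hu).2
      simpa using this
    have hg := hL u (List.mem_filter.1 hu).1
    have h2 : ¬ (3 : ℤ) ∣ u.2.1 * u.2.2.2.2 := by
      intro h3
      rcases (Int.prime_three.dvd_mul).1 h3 with h4 | h4
      · exact hg.1 h4
      · exact hg.2 h4
    show (-u.2.1 * u.2.2.2.2) % 3 = 1
    rw [neg_mul]
    generalize u.2.1 * u.2.2.2.2 = m at h1 h2
    omega

end Pool.Agent.Helper72.T53
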